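import Pool.Agent.W916.MI.E
import Pool.Agent.W916.MI.F

/-!
The images on the real two by two matrices of the semihomogeneous noncommutative polynomials
which take only values of trace zero, and restrictions on the images of all polynomials with a
non-scalar value.
-/

set_option autoImplicit false
set_option linter.unusedVariables false

namespace Pool.Agent.Results.MP_4e44b6_al.TraceZeroImages

/-- The coefficient of the word `l` in the noncommutative polynomial `p`. -/
noncomputable def wordCoeff {m : ℕ} (p : FreeAlgebra ℝ (Fin m)) (l : FreeMonoid (Fin m)) : ℝ :=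
  (FreeAlgebra.equivMonoidAlgebraFreeMonoid p).coeff l

/-- `p` is semihomogeneous: for some non-negative integer weights `w_1, …, w_m` and some integer
`d ≠ 0`, every word occurring in `p` has weighted degree `d`. -/
def IsSemihomogeneous {m : ℕ} (p : FreeAlgebra ℝ (Fin m)) : Prop :=
  ∃ (w : Fin m → ℕ) (d : ℤ), d ≠ 0 ∧
    ∀ l : FreeMonoid (Fin m), wordCoeff p l ≠ 0 → (((l.toList.map w).sum : ℕ) : ℤ) = d

/-- The image of the noncommutative polynomial `p` on the real two by two matrices. -/
noncomputable def image {m : ℕ} (p : FreeAlgebra ℝ (Fin m)) : Set (Matrix (Fin 2) (Fin 2) ℝ) :=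
  Set.range (fun a : Fin m → Matrix (Fin 2) (Fin 2) ℝ => FreeAlgebra.lift ℝ a p)

/-- Every value of `p` on the real two by two matrices has trace zero. -/
def IsTraceZeroValued {m : ℕ} (p : FreeAlgebra ℝ (Fin m)) : Prop :=
  ∀ T ∈ image p, T.trace = 0

/-- Every value of `p` on the real two by two matrices is a scalar matrix. -/
def IsScalarValued {m : ℕ} (p : FreeAlgebra ℝ (Fin m)) : Prop :=
  ∀ T ∈ image p, ∃ c : ℝ, T = algebraMap ℝ (Matrix (Fin 2) (Fin 2) ℝ) c

/-- The discriminant of the characteristic polynomial: positive if `T` has two distinct real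
eigenvalues, negative if `T` has no real eigenvalue. -/
def disc (T : Matrix (Fin 2) (Fin 2) ℝ) : ℝ := T.trace ^ 2 - 4 * T.det

theorem zero_semi : IsSemihomogeneous (0 : FreeAlgebra ℝ (Fin 2)) := by
  refine ⟨fun _ => 1, 1, one_ne_zero, fun l hl => ?_⟩
  exfalso
  apply hl
  simp [wordCoeff]

theorem valued_iff {m : ℕ} (p : FreeAlgebra ℝ (Fin m)) :
    IsTraceZeroValued p ↔
      ∀ a : Fin m → Matrix (Fin 2) (Fin 2) ℝ, (FreeAlgebra.lift ℝ a p).trace = 0 := by
  constructor
  · intro h a
    exact h _ ⟨a, rfl⟩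
  · rintro h _ ⟨a, rfl⟩
    exact h a

/-- A polynomial with a non-scalar value has values with distinct real eigenvalues and values with
non-real eigenvalues. -/
theorem both_signs {m : ℕ} (p : FreeAlgebra ℝ (Fin m)) (h : ¬ IsScalarValued p) :
    (∃ T ∈ image p, 0 < disc T) ∧ (∃ T ∈ image p, disc T < 0) := by
  constructor
  · by_contra hcon
    push Not at hcon
    apply h
    rintro _ ⟨a, rfl⟩
    exact W916.MI.scalar_of_disc p (Or.inr rfl) (fun b => by
      have := hcon _ ⟨b, rfl⟩
      simp only [disc] at this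
      linarith) a
  · by_contra hcon
    push Not at hcon
    apply h
    rintro _ ⟨a, rfl⟩
    exact W916.MI.scalar_of_disc p (Or.inl rfl) (fun b => by
      have := hcon _ ⟨b, rfl⟩
      simp only [disc] at this
      linarith) a

theorem arcs {m : ℕ} (p : FreeAlgebra ℝ (Fin m)) (a₁ b₁ a₂ b₂ : ℝ)
    (hp : ∃ T ∈ image p, 0 < (a₁ * disc T + b₁ * T.trace ^ 2) * (a₂ * disc T + b₂ * T.trace ^ 2))
    (hn : ∃ T ∈ image p, (a₁ * disc T + b₁ * T.trace ^ 2) * (a₂ * disc T + b₂ * T.trace ^ 2) < 0)
    (η : ℝ) (hη : 0 < η) :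
    ∃ T ∈ image p,
      |a₁ * disc T + b₁ * T.trace ^ 2| < η * |a₂ * disc T + b₂ * T.trace ^ 2| ∨
      |a₂ * disc T + b₂ * T.trace ^ 2| < η * |a₁ * disc T + b₁ * T.trace ^ 2| := by
  obtain ⟨_, ⟨a, rfl⟩, ha⟩ := hp
  obtain ⟨_, ⟨b, rfl⟩, hb⟩ := hn
  obtain ⟨c, hc⟩ := W916.MI.connected p a₁ b₁ a₂ b₂ a b ha hb η hη
  exact ⟨_, ⟨c, rfl⟩, hc⟩

/-- **Images of noncommutative polynomials on the real two by two matrices.**

(1) A set of real two by two matrices is the image of a semihomogeneous polynomial all of whose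
values have trace zero if and only if it is `{0}`, the set of all matrices of trace zero, or the
set of all matrices of trace zero which are not nonzero nilpotent matrices.  All three occur.

(2) A noncommutative polynomial (semihomogeneous or not) with a non-scalar value has a value with
two distinct real eigenvalues and a value with non-real eigenvalues.  In particular, if all its
values have trace zero and it does not vanish identically on the real two by two matrices, then it
has a value of positive determinant and a value of negative determinant.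

(3) For every noncommutative polynomial the points `[disc T : (trace T)^2]` of the real projective
line, for the values `T` with `(disc T, trace T) ≠ (0, 0)`, have a connected closure: if two points
of the line, the zeros of the linear forms `a₁ D + b₁ S` and `a₂ D + b₂ S`, separate two of these
points, then at least one of the two zeros is a limit of these points.

(4) If the polynomial has a non-scalar value, then this closure contains a point with `disc = 0` or
the point with `trace = 0`: there are values for which `|disc T|` is less than `η (trace T)^2` or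
`(trace T)^2` is less than `η |disc T|`, for every `η > 0`. -/
theorem result :
    (∀ S : Set (Matrix (Fin 2) (Fin 2) ℝ),
      (∃ (m : ℕ) (p : FreeAlgebra ℝ (Fin m)),
        IsSemihomogeneous p ∧ IsTraceZeroValued p ∧ image p = S) ↔
        (S = {0} ∨ S = {T | T.trace = 0} ∨ S = {T | T.trace = 0 ∧ (T = 0 ∨ T.det ≠ 0)})) ∧
    (∀ (m : ℕ) (p : FreeAlgebra ℝ (Fin m)), ¬ IsScalarValued p →
      (∃ T ∈ image p, 0 < disc T) ∧ (∃ T ∈ image p, disc T < 0)) ∧
    (∀ (m : ℕ) (p : FreeAlgebra ℝ (Fin m)), IsTraceZeroValued p → image p ≠ {0} →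
      (∃ T ∈ image p, 0 < T.det) ∧ (∃ T ∈ image p, T.det < 0)) ∧
    (∀ (m : ℕ) (p : FreeAlgebra ℝ (Fin m)) (a₁ b₁ a₂ b₂ : ℝ),
      (∃ T ∈ image p,
        0 < (a₁ * disc T + b₁ * T.trace ^ 2) * (a₂ * disc T + b₂ * T.trace ^ 2)) →
      (∃ T ∈ image p,
        (a₁ * disc T + b₁ * T.trace ^ 2) * (a₂ * disc T + b₂ * T.trace ^ 2) < 0) →
      ∀ η : ℝ, 0 < η → ∃ T ∈ image p,
        |a₁ * disc T + b₁ * T.trace ^ 2| < η * |a₂ * disc T + b₂ * T.trace ^ 2| ∨
        |a₂ * disc T + b₂ * T.trace ^ 2| < η * |a₁ * disc T + b₁ * T.trace ^ 2|) ∧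
    (∀ (m : ℕ) (p : FreeAlgebra ℝ (Fin m)), ¬ IsScalarValued p → ∀ η : ℝ, 0 < η →
      ∃ T ∈ image p, |disc T| < η * T.trace ^ 2 ∨ T.trace ^ 2 < η * |disc T|) := by
  have hcomm : ∀ a : Fin 2 → Matrix (Fin 2) (Fin 2) ℝ,
      (FreeAlgebra.lift ℝ a (W916.MI.comm2 ^ 3)).trace = 0 := by
    intro a
    rw [map_pow, W916.MI.cube_eq _ (W916.MI.comm2_trace a), Matrix.trace_smul,
      W916.MI.comm2_trace, smul_zero]
  refine ⟨fun S => ⟨?_, ?_⟩, fun m p h => both_signs p h, ?_, ?_, ?_⟩
  · rintro ⟨m, p, hp, htr, rfl⟩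
    exact W916.MI.trichotomy p hp ((valued_iff p).1 htr)
  · rintro (rfl | rfl | rfl)
    · exact ⟨2, 0, zero_semi, (valued_iff _).2 (fun a => by simp), W916.MI.real_zero⟩
    · exact ⟨2, W916.MI.comm2, W916.MI.homo_semi W916.MI.comm2_homo two_ne_zero,
        (valued_iff _).2 W916.MI.comm2_trace, W916.MI.real_sl⟩
    · exact ⟨2, W916.MI.comm2 ^ 3,
        W916.MI.homo_semi (W916.MI.comm2_homo.pow 3) (by norm_num),
        (valued_iff _).2 hcomm, W916.MI.real_third⟩
  · intro m p htr hne
    have hns : ¬ IsScalarValued p := by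
      intro hs
      apply hne
      ext T
      constructor
      · intro hT
        obtain ⟨c, hc⟩ := hs T hT
        have h1 := htr T hT
        rw [hc, Matrix.trace_fin_two] at h1
        simp [Matrix.algebraMap_matrix_apply] at h1
        have h2 : c = 0 := by linarith
        rw [hc, h2, map_zero]
        rfl
      · intro hT
        rw [Set.mem_singleton_iff] at hT
        subst hT
        obtain ⟨c, hc⟩ := hs (FreeAlgebra.lift ℝ (fun _ => 0) p) ⟨fun _ => 0, rfl⟩
        have h1 := htr _ ⟨fun _ => 0, rfl⟩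
        have h1' : (FreeAlgebra.lift ℝ (fun _ => (0 : Matrix (Fin 2) (Fin 2) ℝ)) p).trace = 0 := h1
        rw [hc, Matrix.trace_fin_two] at h1'
        simp [Matrix.algebraMap_matrix_apply] at h1'
        have h2 : c = 0 := by linarith
        refine ⟨fun _ => 0, ?_⟩
        show FreeAlgebra.lift ℝ (fun _ => (0 : Matrix (Fin 2) (Fin 2) ℝ)) p = 0
        rw [hc, h2, map_zero]
    obtain ⟨⟨T, hT, h1⟩, ⟨T', hT', h2⟩⟩ := both_signs p hns
    simp only [disc, htr T hT, htr T' hT'] at h1 h2
    exact ⟨⟨T', hT', by linarith⟩, ⟨T, hT, by linarith⟩⟩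
  · intro m p a₁ b₁ a₂ b₂ hp hn η hη
    exact arcs p a₁ b₁ a₂ b₂ hp hn η hη
  · intro m p hns η hη
    obtain ⟨⟨T, hT, h1⟩, ⟨T', hT', h2⟩⟩ := both_signs p hns
    by_cases t1 : T.trace = 0
    · refine ⟨T, hT, Or.inr ?_⟩
      rw [t1]
      have : 0 < |disc T| := abs_pos.2 h1.ne'
      have := mul_pos hη this
      simpa using this
    by_cases t2 : T'.trace = 0
    · refine ⟨T', hT', Or.inr ?_⟩
      rw [t2]
      have : 0 < |disc T'| := abs_pos.2 h2.ne
      have := mul_pos hη this
      simpa using this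
    have s1 : 0 < T.trace ^ 2 := by positivity
    have s2 : 0 < T'.trace ^ 2 := by positivity
    obtain ⟨U, hU, hh⟩ := arcs p 1 0 0 1
      ⟨T, hT, by simpa using mul_pos h1 s1⟩
      ⟨T', hT', by simpa using mul_neg_of_neg_of_pos h2 s2⟩ η hη
    refine ⟨U, hU, ?_⟩
    simpa [abs_of_nonneg (sq_nonneg (Matrix.trace U))] using hh

end Pool.Agent.Results.MP_4e44b6_al.TraceZeroImages
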